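import Pool.Agent.Q57.QM.Stm

set_option autoImplicit false

/-! # Project QM of helper57, job P: denominators; germs of ideals of the plane -/

namespace Pool.Agent.Q176.QM

open MvPolynomial Pool.Agent.W428.MOT Pool.Agent.TH192.MT Pool.Agent.TH192.DT Pool.Agent.Q49.CO
open Pool.Agent.W574.MO (mf geo MotLocal DenRing)
open Pool.Agent.Q57.MD (PM RT SW SW_true VW coeff_VW geoU_spec)
open Pool.Agent.Q57.QM
open Pool.Agent.Y229 (point_sf translate_zero KS)
open Pool.Agent.W574.RO (tail coeff_tail)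

/-- the two descriptions of denominators -/
theorem qm_den : StDen := by
  intro R _ u K Z hZ
  classical
  unfold DenRing at hZ
  induction hZ using Subring.closure_induction with
  | mem x hx =>
    rcases hx with ⟨p, rfl⟩ | ⟨a, n, ha, hn, hK, hx⟩
    · refine ⟨∅, fun q hq => absurd hq (Finset.notMem_empty q), ?_⟩
      dsimp only
      induction p using Polynomial.induction_on with
      | C c =>
        rw [Polynomial.coe_C]
        exact rat_C u _
      | add p q hp hq =>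
        rw [Polynomial.coe_add]
        exact Subalgebra.add_mem _ hp hq
      | monomial k c _ =>
        rw [Polynomial.coe_mul, Polynomial.coe_C, Polynomial.coe_pow, Polynomial.coe_X]
        exact Subalgebra.mul_mem _ (rat_C u _) (Subalgebra.pow_mem _ (rat_X u) _)
    · refine ⟨{(-(n : ℤ), (a : ℤ))}, fun q hq => ⟨a, n, ha, hn, hK, Finset.mem_singleton.1 hq⟩, ?_⟩
      have h1 := geoU_spec u (-(n : ℤ)) (a : ℤ) (by omega)
      rw [Int.toNat_natCast] at h1
      have h2 : ((u ^ (-(n : ℤ)) : Rˣ) : R) = ((u⁻¹ ^ n : Rˣ) : R) := by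
        rw [zpow_neg, zpow_natCast, inv_pow]
      rw [h2] at h1
      have h3 : x = geoU u (-(n : ℤ)) (a : ℤ) := by
        calc x = x * ((1 - PowerSeries.C ((u⁻¹ ^ n : Rˣ) : R) * PowerSeries.X ^ a) *
              geoU u (-(n : ℤ)) (a : ℤ)) := by rw [h1, mul_one]
          _ = geoU u (-(n : ℤ)) (a : ℤ) := by rw [← mul_assoc, hx, one_mul]
      rw [h3]
      exact Algebra.subset_adjoin (Or.inr ⟨(-(n : ℤ), (a : ℤ)), by simp, rfl⟩)
  | zero => exact ⟨∅, fun q hq => absurd hq (Finset.notMem_empty q), Subalgebra.zero_mem _⟩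
  | one => exact ⟨∅, fun q hq => absurd hq (Finset.notMem_empty q), Subalgebra.one_mem _⟩
  | add x y _ _ hx hy =>
    obtain ⟨S, hS, hxS⟩ := hx
    obtain ⟨T, hT, hyT⟩ := hy
    refine ⟨S ∪ T, fun q hq => ?_, Subalgebra.add_mem _
      (rat_mono u (Finset.coe_subset.2 Finset.subset_union_left) hxS)
      (rat_mono u (Finset.coe_subset.2 Finset.subset_union_right) hyT)⟩
    rcases Finset.mem_union.1 hq with h | h
    · exact hS q h
    · exact hT q h
  | neg x _ hx =>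
    obtain ⟨S, hS, hxS⟩ := hx
    exact ⟨S, hS, Subalgebra.neg_mem _ hxS⟩
  | mul x y _ _ hx hy =>
    obtain ⟨S, hS, hxS⟩ := hx
    obtain ⟨T, hT, hyT⟩ := hy
    refine ⟨S ∪ T, fun q hq => ?_, Subalgebra.mul_mem _
      (rat_mono u (Finset.coe_subset.2 Finset.subset_union_left) hxS)
      (rat_mono u (Finset.coe_subset.2 Finset.subset_union_right) hyT)⟩
    rcases Finset.mem_union.1 hq with h | h
    · exact hS q h
    · exact hT q h

section

variable {R : Type} [CommRing R] (M : Meas ℂ R) {v : R} (hv : M.L * v = 1)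
include hv

theorem vo_rg0 {r : ℕ} (g : Fin r → MvPolynomial (Fin 2) ℂ) (N : ℕ) :
    vo M v (Rg g 0 0 0 0 (fun _ => True) N) = vol M v g {0} N := by
  rw [vol_eq_vo M hv g constr_pt0 N]
  refine vo_congr M fun γ => ?_
  unfold Rg OC
  rw [if_pos rfl, if_pos rfl]
  have h1 : ∀ x : PowerSeries (AlgebraicClosure ℂ), Vn 1 x ↔ PowerSeries.coeff 0 x = 0 := by
    intro x
    constructor
    · intro h
      exact h 0 (by omega)
    · intro h k hk
      have : k = 0 := by omega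
      rw [this]
      exact h
  rw [h1, h1]
  constructor
  · rintro ⟨-, ⟨-, a0⟩, ⟨-, a1⟩, h⟩
    refine ⟨?_, h⟩
    rw [Set.mem_singleton_iff]
    funext i
    fin_cases i
    · exact a0
    · exact a1
  · rintro ⟨h0, h⟩
    rw [Set.mem_singleton_iff] at h0
    exact ⟨trivial, ⟨rfl, congrFun h0 0⟩, ⟨rfl, congrFun h0 1⟩, h⟩

theorem vo_rg1 {r : ℕ} (g : Fin r → MvPolynomial (Fin 2) ℂ) (k0 k1 N : ℕ)
    (h : k0 ≠ 0 ∨ k1 ≠ 0) : vo M v (Rg g 0 k0 0 k1 (fun _ => True) N) = 0 := by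
  refine vo_false M hv fun γ hγ => ?_
  unfold Rg OC at hγ
  rw [if_pos rfl, if_pos rfl] at hγ
  rcases h with h | h
  · exact h hγ.2.1.1
  · exact h hγ.2.2.1.1

theorem coeff_IS {r : ℕ} (g : Fin r → MvPolynomial (Fin 2) ℂ) (N : ℕ) :
    PowerSeries.coeff N (IS M v g 0 1 0 1) =
      M.L ^ 2 * (vol M v g {0} N - vol M v g {0} (N + 1)) := by
  unfold IS sv
  rw [PowerSeries.coeff_mk]
  congr 1
  have hd : ∀ k0 k1 : ℕ, dv M v g 0 1 0 1 (fun _ => True) k0 k1 N =
      vo M v (Rg g 0 k0 0 k1 (fun _ => True) N) -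
        vo M v (Rg g 0 k0 0 k1 (fun _ => True) (N + 1)) := by
    intro k0 k1
    unfold dv
    rw [zero_mul, zero_mul, add_zero, Nat.sub_zero, Nat.sub_zero, Nat.sub_self, zero_mul, zero_mul,
      add_zero, pow_zero, one_mul]
  rw [Finset.sum_eq_single 0, Finset.sum_eq_single 0]
  · rw [hd, vo_rg0 M hv, vo_rg0 M hv]
  · intro k1 _ h
    rw [hd, vo_rg1 M hv g 0 k1 _ (Or.inr h), vo_rg1 M hv g 0 k1 _ (Or.inr h), sub_zero]
  · intro h
    exact absurd (Finset.mem_range.2 (Nat.succ_pos N)) h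
  · intro k0 _ h
    refine Finset.sum_eq_zero fun k1 _ => ?_
    rw [hd, vo_rg1 M hv g k0 k1 _ (Or.inl h), vo_rg1 M hv g k0 k1 _ (Or.inl h), sub_zero]
  · intro h
    exact absurd (Finset.mem_range.2 (Nat.succ_pos N)) h

theorem VW_tail {r : ℕ} (g : Fin r → MvPolynomial (Fin 2) ℂ) :
    VW M v g {0} = PowerSeries.C (v ^ 2) * tail 1 (IS M v g 0 1 0 1) := by
  ext e
  rw [coeff_VW, PowerSeries.coeff_C_mul, coeff_tail]
  have h1 : ∑ k ∈ Finset.range e, PowerSeries.coeff k (IS M v g 0 1 0 1) =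
      M.L ^ 2 * (vol M v g {0} 0 - vol M v g {0} e) := by
    rw [Finset.sum_congr rfl fun k _ => coeff_IS M hv g k, ← Finset.mul_sum,
      Finset.sum_range_sub']
  have h2 : vol M v g ({0} : Set (Pt ℂ (Fin 2))) 0 = v ^ 2 := by
    rw [vol_zero M hv g constr_pt0, chi_pt0, one_mul, Fintype.card_fin]
  rw [h1, h2]
  have h3 : M.L ^ 2 * v ^ 2 = 1 := by rw [← mul_pow, hv, one_pow]
  linear_combination (v ^ 2 - vol M v g {0} e) * h3

end

/-- the germs of ideals of the plane -/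
theorem qm_plane (hT : StTree) (hD : StDen) : StPlane := by
  intro M hL r f hf
  refine ⟨hf, ?_⟩
  have hv : M.L * (((Lu ℂ)⁻¹ : (MK ℂ)ˣ) : MK ℂ) = 1 := by
    rw [hL]
    exact Units.mul_inv (Lu ℂ)
  have h1 := hT M (Lu ℂ) hL f hf
  have h2 := point_sf (Lu ℂ) f hf 0 (IS M (((Lu ℂ)⁻¹ : (MK ℂ)ˣ) : MK ℂ) f 0 1 0 1)
    (by rw [Pool.Agent.Y229.translate_zero]; exact h1)
  obtain ⟨S, hS, hZ⟩ := hD (Lu ℂ) _ _ h2
  refine ⟨S, ?_, ?_⟩
  · intro q hq
    obtain ⟨a, n, ha, hn, hK, rfl⟩ := hS q hq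
    refine ⟨by dsimp only; omega, by dsimp only; omega, ?_⟩
    have e : ((((-(n : ℤ), (a : ℤ)) : ℤ × ℤ).1 : ℂ) / (((-(n : ℤ), (a : ℤ)) : ℤ × ℤ).2 : ℂ)) =
        -(n : ℂ) / a := by
      push_cast
      rfl
    rw [e]
    exact hK
  · rw [SW_true, VW_tail M hv f]
    exact Subalgebra.mul_mem _ (rat_C _ _) hZ

end Pool.Agent.Q176.QM
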